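import Pool.Agent.Helper61.FN.Goals

/-!
# Project FN (MP_06d934_gt): packet FN-LOG
-/

set_option autoImplicit false

namespace Pool.Agent.Helper3.FN

open Pool.Agent.Helper61.FN

theorem goalLOG (h1 : G_SUB) (h2 : G_DER) (h3 : G_DED) (h4 : G_PLV) (h5 : G_BET) : G_LOG := by
  intro F K E _ _ _ _ _ x e₀ hx ht
  obtain ⟨F', hF1, hF2⟩ := h1 F K E x e₀ hx ht
  have : CharZero F' := charZero_of_injective_algebraMap (algebraMap F F').injective
  obtain ⟨D, hD⟩ := h2 F' K (x e₀) hF1 hF2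
  obtain ⟨R, hR⟩ := h3 F' K (x e₀) hF1 hF2
  have hne : x e₀ ≠ 0 := by
    intro h0
    rw [h0] at ht
    exact ht (isAlgebraic_zero)
  obtain ⟨v, hv⟩ := h4 F' K (x e₀) R hne hR
  have hb := h5 F' K (x e₀) R v D hne hR hv hD
  refine ⟨v, D.restrictScalars F, ⟨hv.vt, ?_, hv.uni, hD, hb⟩⟩
  intro c hc
  have h := hv.triv (algebraMap F F' c) (by
    intro h
    exact hc ((map_eq_zero (algebraMap F F')).1 h))
  rwa [← IsScalarTower.algebraMap_apply] at h

end Pool.Agent.Helper3.FN
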